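import Pool.Agent.Helper28.T3.StA

/-!
# Project T3, module PLC: places and regulator of an imaginary quadratic field
-/

set_option autoImplicit false

open scoped NumberField

namespace Pool.Agent.Helper13.T3

open Pool.Agent.Helper28.T3
open NumberField NumberField.InfinitePlace NumberField.Units

theorem hPLC : StDSC → StPLC := by
  classical
  intro hDSC D K _ _ h hD
  have hrank : Module.finrank ℚ K = 2 := by
    rw [← NumberField.RingOfIntegers.rank, Module.finrank_eq_card_basis h.b, Fintype.card_fin]
  have hdisc := hDSC D K h
  have hsgn := NumberField.sign_discr (K := K)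
  have hcard := NumberField.InfinitePlace.card_add_two_mul_card_eq_rank K
  rw [hrank] at hcard
  rw [hdisc, Int.sign_neg, Int.sign_eq_one_of_pos (by exact_mod_cast hD)] at hsgn
  have hc : nrComplexPlaces K = 1 := by
    have h1 : nrComplexPlaces K ≤ 1 := by omega
    have h2 : nrComplexPlaces K ≠ 0 := by
      intro h0
      rw [h0] at hsgn
      norm_num at hsgn
    omega
  have hr : nrRealPlaces K = 0 := by omega
  have hplaces : Fintype.card (InfinitePlace K) = 1 := by
    rw [NumberField.InfinitePlace.card_eq_nrRealPlaces_add_nrComplexPlaces, hr, hc]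
  have hrk : rank K = 0 := by
    unfold NumberField.Units.rank
    rw [hplaces]
  obtain ⟨w, hw⟩ := Fintype.card_eq_one_iff.mp hplaces
  have hempty : IsEmpty {w' // w' ≠ w} := ⟨fun x => x.2 (hw x.1)⟩
  have hempty2 : IsEmpty (Fin (rank K)) := by
    rw [hrk]
    infer_instance
  refine ⟨hr, hc, ?_, hrank⟩
  rw [regulator_eq_det K w (Equiv.equivOfIsEmpty _ _), Matrix.det_isEmpty, abs_one]

end Pool.Agent.Helper13.T3
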